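import Pool.Agent.helper67.DL.SpecX

namespace Pool.Agent.DL

open Complex

noncomputable section

theorem X06 : X06_stmt := by
  intro p
  obtain ⟨p, hp⟩ := p
  rcases hp with ⟨z, y, rfl, h⟩ | ⟨y, rfl, h⟩ | ⟨z, rfl, h⟩
  · by_cases hy : y = 0
    · subst hy
      have hz4 : z ^ 4 = 1 := by linear_combination h
      have hz : z ≠ 0 := by rintro rfl; norm_num at hz4
      refine Or.inr ⟨z, by linear_combination (z ^ 4 + 1) * hz4, ?_, ?_⟩
      · exact OnePoint.coe_ne_infty z
      · show |(z / z).im| < (z / z).re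
        rw [div_self hz]; simp
    · left
      rcases lt_trichotomy y.re 0 with h1 | h1 | h1
      · refine ⟨-1, by norm_num, OnePoint.coe_ne_infty y, ?_⟩
        show 0 < (y / (-1)).re
        rw [div_neg, div_one, neg_re]; linarith
      · rcases lt_trichotomy y.im 0 with h2 | h2 | h2
        · refine ⟨-I, by rw [neg_pow, I_pow_four]; norm_num, OnePoint.coe_ne_infty y, ?_⟩
          show 0 < (y / (-I)).re
          rw [div_neg, div_I]; simp; exact h2
        · exact absurd (Complex.ext h1 h2) hy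
        · refine ⟨I, I_pow_four, OnePoint.coe_ne_infty y, ?_⟩
          show 0 < (y / I).re
          rw [div_I]; simp; exact h2
      · refine ⟨1, by norm_num, OnePoint.coe_ne_infty y, ?_⟩
        show 0 < (y / 1).re
        rw [div_one]; exact h1
  · left
    have hy2 : y ^ 2 = -1 := by linear_combination h
    have hy : y ≠ 0 := by rintro rfl; norm_num at hy2
    refine ⟨y, by linear_combination (y ^ 2 - 1) * hy2, OnePoint.coe_ne_infty y, ?_⟩
    show 0 < (y / y).re
    rw [div_self hy]; simp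
  · have hz4 : z ^ 4 = -1 := by linear_combination h
    have hz : z ≠ 0 := by rintro rfl; norm_num at hz4
    refine Or.inr ⟨z, by linear_combination (z ^ 4 - 1) * hz4, ?_, ?_⟩
    · exact OnePoint.coe_ne_infty z
    · show |(z / z).im| < (z / z).re
      rw [div_self hz]; simp

theorem X11_aux {c d : ℂ} (hc : c ≠ 0) (hd : d ≠ 0) (t r : ℝ) (ht : 0 < t) (hr : 0 < r)
    (h : (1 + ((t : ℂ) * d) ^ 4) * (1 + (c * (r : ℂ)) ^ 2) = 2) : (gS c ∩ eS d).Nonempty := by
  refine ⟨⟨(OnePoint.some ((t : ℂ) * d), OnePoint.some (c * (r : ℂ))), Or.inl ⟨_, _, rfl, h⟩⟩, ⟨OnePoint.coe_ne_infty _, ?_⟩,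
    OnePoint.coe_ne_infty _, ?_⟩
  · show 0 < ((c * (r : ℂ)) / c).re
    rw [mul_div_cancel_left₀ _ hc]; simpa using hr
  · show |(((t : ℂ) * d) / d).im| < (((t : ℂ) * d) / d).re
    rw [mul_div_cancel_right₀ _ hd]; simpa using ht

theorem X11 : X11_stmt := by
  intro c d hc hd
  have hc0 : c ≠ 0 := by rintro rfl; norm_num at hc
  have hd0 : d ≠ 0 := by rintro rfl; norm_num at hd
  have hc2 : c ^ 2 = 1 ∨ c ^ 2 = -1 := by
    have : (c ^ 2 - 1) * (c ^ 2 + 1) = 0 := by linear_combination hc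
    rcases mul_eq_zero.1 this with h | h
    · left; linear_combination h
    · right; linear_combination h
  have hd4 : d ^ 4 = 1 ∨ d ^ 4 = -1 := by
    have : (d ^ 4 - 1) * (d ^ 4 + 1) = 0 := by linear_combination hd
    rcases mul_eq_zero.1 this with h | h
    · left; linear_combination h
    · right; linear_combination h
  have hs1 : ((Real.sqrt (15 / 17) : ℝ) : ℂ) ^ 2 = 15 / 17 := by
    rw [← ofReal_pow, Real.sq_sqrt (by norm_num)]; push_cast; ring
  have hs2 : ((Real.sqrt (17 / 15) : ℝ) : ℂ) ^ 2 = 17 / 15 := by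
    rw [← ofReal_pow, Real.sq_sqrt (by norm_num)]; push_cast; ring
  have hp1 : 0 < Real.sqrt (15 / 17) := Real.sqrt_pos.2 (by norm_num)
  have hp2 : 0 < Real.sqrt (17 / 15) := Real.sqrt_pos.2 (by norm_num)
  rcases hc2 with h2 | h2 <;> rcases hd4 with h4 | h4
  · refine X11_aux hc0 hd0 (1 / 2) _ (by norm_num) hp1 ?_
    rw [mul_pow, mul_pow, h2, h4, hs1]; push_cast; norm_num
  · refine X11_aux hc0 hd0 (1 / 2) _ (by norm_num) hp2 ?_
    rw [mul_pow, mul_pow, h2, h4, hs2]; push_cast; norm_num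
  · refine X11_aux hc0 hd0 2 _ (by norm_num) hp1 ?_
    rw [mul_pow, mul_pow, h2, h4, hs1]; push_cast; norm_num
  · refine X11_aux hc0 hd0 2 _ (by norm_num) hp2 ?_
    rw [mul_pow, mul_pow, h2, h4, hs2]; push_cast; norm_num

end

end Pool.Agent.DL
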